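import Pool.Agent.MP_18c441_lc.Main

/-!
Check that the criterion applies to combinatory logic with the conditional: to the system with
the sixth rule (Czajka 2017), to the one with the mirror rule, and to the one with both.
-/

namespace Pool.Agent.MP_18c441_lc.CL

open Relation

/-- Application and the six constants. -/
inductive Sy : Type
  | ap | S | K | I | T | F | C

/-- Application is binary. -/
def ar : Sy → ℕ
  | .ap => 2
  | _ => 0

abbrev Tr := Tm ar ℕ

def ap (a b : Tr) : Tr := .node .ap (show Fin 2 → Tr from ![a, b])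

def cS : Tr := .node .S Fin.elim0
def cK : Tr := .node .K Fin.elim0
def cI : Tr := .node .I Fin.elim0
def cT : Tr := .node .T Fin.elim0
def cF : Tr := .node .F Fin.elim0
def cC : Tr := .node .C Fin.elim0

def x : Tr := .var 0
def y : Tr := .var 1
def z : Tr := .var 2

def rI : Rule ar := ⟨ap cI x, x, []⟩
def rK : Rule ar := ⟨ap (ap cK x) y, x, []⟩
def rS : Rule ar := ⟨ap (ap (ap cS x) y) z, ap (ap x z) (ap y z), []⟩
def rT : Rule ar := ⟨ap (ap (ap cC cT) x) y, x, []⟩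
def rF : Rule ar := ⟨ap (ap (ap cC cF) x) y, y, []⟩
def rL : Rule ar := ⟨ap (ap (ap cC z) x) y, x, [(x, y)]⟩
def rR : Rule ar := ⟨ap (ap (ap cC z) x) y, y, [(x, y)]⟩

/-- All seven rules. -/
def All : Set (Rule ar) := {rI, rK, rS, rT, rF, rL, rR}

theorem ap_sub (σ : ℕ → Tr) (a b : Tr) : (ap a b).sub σ = ap (a.sub σ) (b.sub σ) := by
  simp only [ap, Tm.sub]
  congr 1
  funext i
  fin_cases i <;> rfl

theorem ap_inj {a b c d : Tr} : ap a b = ap c d ↔ a = c ∧ b = d := by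
  constructor
  · intro h
    have := node_inj h
    exact ⟨congrFun this (0 : Fin 2), congrFun this (1 : Fin 2)⟩
  · rintro ⟨rfl, rfl⟩; rfl

theorem ap_occ {a b : Tr} {k : ℕ} : (ap a b).Occ k ↔ a.Occ k ∨ b.Occ k :=
  Fin.exists_fin_two (p := fun i => ((![a, b] : Fin 2 → Tr) i).Occ k)

theorem ap_lin {a b : Tr} (ha : a.Linear) (hb : b.Linear) (h : ∀ k, a.Occ k → ¬ b.Occ k) :
    (ap a b).Linear := by
  refine ⟨fun i => ?_, fun i j k hi hj => ?_⟩
  · fin_cases i
    · exact ha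
    · exact hb
  · fin_cases i <;> fin_cases j
    · rfl
    · exact (h k hi hj).elim
    · exact (h k hj hi).elim
    · rfl

theorem psub_node {f : Sy} {a : Fin (ar f) → Tr} {p : Tr} (h : PSub p (.node f a)) :
    ∃ i, p = a i ∨ PSub p (a i) := by
  generalize hs : Tm.node f a = s at h
  cases h with
  | arg g b i => cases hs; exact ⟨i, .inl rfl⟩
  | deep g b i h => cases hs; exact ⟨i, .inr h⟩

theorem psub_ap {a b p : Tr} (h : PSub p (ap a b)) : p = a ∨ PSub p a ∨ p = b ∨ PSub p b := by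
  obtain ⟨i, h⟩ := psub_node h
  fin_cases i
  · exact h.elim .inl fun h => .inr (.inl h)
  · exact h.elim (fun h => .inr (.inr (.inl h))) fun h => .inr (.inr (.inr h))

theorem psub_var {k : ℕ} {p : Tr} : ¬ PSub p (.var k) := fun h => by cases h

theorem psub_c {f : Sy} {a : Fin (ar f) → Tr} (hf : ar f = 0) {p : Tr} :
    ¬ PSub p (.node f a) := fun h =>
  let ⟨i, _⟩ := psub_node h
  (hf ▸ i : Fin 0).elim0

/-- Head symbol and number of arguments. -/
def spine : Tr → Option (Sy × ℕ)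
  | .var _ => none
  | .node .ap a => (spine (a (0 : Fin 2))).map fun c => (c.1, c.2 + 1)
  | .node .S _ => some (.S, 0)
  | .node .K _ => some (.K, 0)
  | .node .I _ => some (.I, 0)
  | .node .T _ => some (.T, 0)
  | .node .F _ => some (.F, 0)
  | .node .C _ => some (.C, 0)

theorem spine_ap (a b : Tr) : spine (ap a b) = (spine a).map fun c => (c.1, c.2 + 1) := rfl

theorem c_occ {f : Sy} {a : Fin (ar f) → Tr} (hf : ar f = 0) {k : ℕ} :
    ¬ (Tm.node f a).Occ k := fun ⟨i, _⟩ => (hf ▸ i : Fin 0).elim0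

theorem c_lin {f : Sy} {a : Fin (ar f) → Tr} (hf : ar f = 0) : (Tm.node f a).Linear :=
  ⟨fun i => (hf ▸ i : Fin 0).elim0, fun i => (hf ▸ i : Fin 0).elim0⟩

theorem var_occ {j k : ℕ} : (Tm.var j : Tr).Occ k ↔ k = j := Iff.rfl

theorem var_lin {j : ℕ} : (Tm.var j : Tr).Linear := trivial

theorem wf : ∀ ρ ∈ All, ρ.WF := by
  have h1 : ∀ k, ¬ cS.Occ k := fun k => c_occ rfl
  have h2 : ∀ k, ¬ cK.Occ k := fun k => c_occ rfl
  have h3 : ∀ k, ¬ cI.Occ k := fun k => c_occ rfl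
  have h4 : ∀ k, ¬ cT.Occ k := fun k => c_occ rfl
  have h5 : ∀ k, ¬ cF.Occ k := fun k => c_occ rfl
  have h6 : ∀ k, ¬ cC.Occ k := fun k => c_occ rfl
  have lin : ∀ ρ ∈ All, ρ.l.Linear := by
    rintro ρ (rfl | rfl | rfl | rfl | rfl | rfl | rfl) <;>
      (repeat' first | refine ap_lin ?_ ?_ ?_ | exact var_lin | exact c_lin rfl) <;>
      simp [ap_occ, var_occ, x, y, z, h1, h2, h3, h4, h5, h6]
  intro ρ hρ
  refine ⟨?_, lin ρ hρ, ?_, ?_⟩ <;>
    rcases hρ with rfl | rfl | rfl | rfl | rfl | rfl | rfl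
  iterate 7 exact fun k hk => by cases hk
  all_goals simp [rI, rK, rS, rT, rF, rL, rR, ap_occ, var_occ, x, y, z, h1, h2, h3, h4, h5, h6]
  all_goals omega

theorem spine_l : ∀ ρ ∈ All, ∀ σ : ℕ → Tr, spine (ρ.l.sub σ) = some (.I, 1) ∨
    spine (ρ.l.sub σ) = some (.K, 2) ∨ spine (ρ.l.sub σ) = some (.S, 3) ∨
    spine (ρ.l.sub σ) = some (.C, 3) := by
  rintro ρ (rfl | rfl | rfl | rfl | rfl | rfl | rfl) σ <;>
    simp [rI, rK, rS, rT, rF, rL, rR, ap_sub, spine_ap, cS, cK, cI, cC, Tm.sub, spine]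

theorem inner {R : Set (Rule ar)} (hR : R ⊆ All) : Inner R := by
  intro ρ₁ h₁ ρ₂ h₂ p hp hv σ₁ σ₂ h _ _
  have h3 := spine_l ρ₂ (hR h₂) σ₂
  rw [← h] at h3
  have hx : p ≠ x := hv 0
  have hy : p ≠ y := hv 1
  have hz : p ≠ z := hv 2
  have nx : ¬ PSub p x := psub_var
  have ny : ¬ PSub p y := psub_var
  have nz : ¬ PSub p z := psub_var
  have n1 : ¬ PSub p cS := psub_c rfl
  have n2 : ¬ PSub p cK := psub_c rfl
  have n3 : ¬ PSub p cI := psub_c rfl
  have n4 : ¬ PSub p cT := psub_c rfl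
  have n5 : ¬ PSub p cF := psub_c rfl
  have n6 : ¬ PSub p cC := psub_c rfl
  rcases hR h₁ with rfl | rfl | rfl | rfl | rfl | rfl | rfl
  all_goals
    repeat' first
      | contradiction
      | (have hq := psub_ap (by exact hp); clear hp; rcases hq with hp | hp | hp | hp)
  all_goals
    subst hp
    simp [ap_sub, spine_ap, cS, cK, cI, cC, cT, cF, Tm.sub, spine] at h3

theorem root {R : Set (Rule ar)} (hR : R ⊆ All) : Root R := by
  intro ρ₁ h₁ ρ₂ h₂ _ σ₁ σ₂ h
  have vL : Variant rL y := .rel _ _ (.root (by simp [rL]))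
  have vR : Variant rR x := .symm _ _ (.rel _ _ (.root (by simp [rR])))
  have hs := congrArg spine h
  rcases hR h₁ with rfl | rfl | rfl | rfl | rfl | rfl | rfl <;>
    rcases hR h₂ with rfl | rfl | rfl | rfl | rfl | rfl | rfl
  all_goals first
    | (exfalso
       simp [rI, rK, rS, rT, rF, rL, rR, ap_sub, spine_ap, cS, cK, cI, cC, Tm.sub, spine] at hs
       done)
    | simp only [rI, rK, rS, rT, rF, rL, rR, ap_sub, ap_inj] at h
  all_goals first
    | exact ⟨x, x, .refl _, .refl _, h.2⟩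
    | exact ⟨x, x, .refl _, .refl _, h.1.2⟩
    | exact ⟨y, y, .refl _, .refl _, h.2⟩
    | exact ⟨x, x, .refl _, vR, h.1.2⟩
    | exact ⟨x, x, vR, .refl _, h.1.2⟩
    | exact ⟨y, y, .refl _, vL, h.2⟩
    | exact ⟨y, y, vL, .refl _, h.2⟩
    | exact ⟨_, _, .refl _, .refl _, by
        simp only [rS, ap_sub, ap_inj]; exact ⟨⟨h.1.1.2, h.2⟩, h.1.2, h.2⟩⟩
    | exact absurd h.1.1.2 (by simp [cT, cF, Tm.sub])

/-- Every set of these rules is confluent. -/
theorem confluent_sub {R : Set (Rule ar)} (hR : R ⊆ All) {t t₁ t₂ : Tr} (h₁ : RT R t t₁)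
    (h₂ : RT R t t₂) : ∃ u, RT R t₁ u ∧ RT R t₂ u :=
  confluent (fun ρ hρ => wf ρ (hR hρ)) (inner hR) (root hR) h₁ h₂

/-- The system of the problem file. -/
theorem confluent_Q1 {t t₁ t₂ : Tr} (h₁ : RT {rI, rK, rS, rT, rF, rL} t t₁)
    (h₂ : RT {rI, rK, rS, rT, rF, rL} t t₂) :
    ∃ u, RT {rI, rK, rS, rT, rF, rL} t₁ u ∧ RT {rI, rK, rS, rT, rF, rL} t₂ u :=
  confluent_sub (by
    rintro ρ (rfl | rfl | rfl | rfl | rfl | rfl) <;> simp [All]) h₁ h₂

end Pool.Agent.MP_18c441_lc.CL
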