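import Mathlib

/-!
First-order terms, conditional rewrite rules and the semi-equational rewrite relation.
-/

namespace Pool.Agent.MP_18c441_lc

universe v w

/-- First-order terms over the symbols F with arities ar and the variables W. -/
inductive Tm {F : Type} (ar : F → ℕ) (W : Type v) : Type v
  | var : W → Tm ar W
  | node : (f : F) → (Fin (ar f) → Tm ar W) → Tm ar W

variable {F : Type} {ar : F → ℕ}

/-- The result of substituting σ x for each variable x. -/
def Tm.sub {W : Type v} {W' : Type w} (σ : W → Tm ar W') : Tm ar W → Tm ar W'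
  | .var x => σ x
  | .node f a => .node f (fun i => (a i).sub σ)

/-- The variable x occurs in the term. -/
def Tm.Occ {W : Type v} (x : W) : Tm ar W → Prop
  | .var y => x = y
  | .node _ a => ∃ i, (a i).Occ x

/-- No variable occurs twice in the term. -/
def Tm.Linear : Tm ar ℕ → Prop
  | .var _ => True
  | .node _ a => (∀ i, (a i).Linear) ∧ ∀ i j x, (a i).Occ x → (a j).Occ x → i = j

/-- PSub p t: p is a proper subterm of t. -/
inductive PSub : Tm ar ℕ → Tm ar ℕ → Prop
  | arg (f : F) (a : Fin (ar f) → Tm ar ℕ) (i : Fin (ar f)) : PSub (a i) (.node f a)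
  | deep {p : Tm ar ℕ} (f : F) (a : Fin (ar f) → Tm ar ℕ) (i : Fin (ar f)) :
      PSub p (a i) → PSub p (.node f a)

/-- Ctx Q is the closure of the relation Q under contexts: one subterm s is replaced by a
term t with Q s t. -/
inductive Ctx (Q : Tm ar ℕ → Tm ar ℕ → Prop) : Tm ar ℕ → Tm ar ℕ → Prop
  | root {s t : Tm ar ℕ} : Q s t → Ctx Q s t
  | arg (f : F) (a : Fin (ar f) → Tm ar ℕ) (i : Fin (ar f)) {t : Tm ar ℕ} :
      Ctx Q (a i) t → Ctx Q (.node f a) (.node f (Function.update a i t))

/-- A conditional rule l → r with a finite list of equations as its conditions. -/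
structure Rule {F : Type} (ar : F → ℕ) : Type where
  l : Tm ar ℕ
  r : Tm ar ℕ
  conds : List (Tm ar ℕ × Tm ar ℕ)

/-- The rewrite relation of level n: level 0 is empty; a step of level n + 1 contracts, in any
context, an instance of a rule whose conditions are convertible at level n. -/
def Step (R : Set (Rule ar)) : ℕ → Tm ar ℕ → Tm ar ℕ → Prop
  | 0 => fun _ _ => False
  | n + 1 => Ctx fun s t => ∃ ρ ∈ R, ∃ σ : ℕ → Tm ar ℕ, s = ρ.l.sub σ ∧ t = ρ.r.sub σ ∧
      ∀ e ∈ ρ.conds, Relation.EqvGen (Step R n) (e.1.sub σ) (e.2.sub σ)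

/-- The semi-equational rewrite relation of R: the union of all levels. -/
def Red (R : Set (Rule ar)) (s t : Tm ar ℕ) : Prop := ∃ n, Step R n s t

/-- The conditions of ρ hold under σ: both sides of each are convertible in R. -/
def Holds (R : Set (Rule ar)) (ρ : Rule ar) (σ : ℕ → Tm ar ℕ) : Prop :=
  ∀ e ∈ ρ.conds, Relation.EqvGen (Red R) (e.1.sub σ) (e.2.sub σ)

/-- r' arises from the right side of ρ by replacing subterms, each time one side of a condition
of ρ by its other side (no instantiation). -/
def Variant (ρ : Rule ar) (r' : Tm ar ℕ) : Prop :=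
  Relation.EqvGen (Ctx fun s t => (s, t) ∈ ρ.conds) ρ.r r'

/-- The left side is linear and no variable, and it contains every variable of the right side
and of the conditions. -/
def Rule.WF (ρ : Rule ar) : Prop :=
  (∀ x, ρ.l ≠ .var x) ∧ ρ.l.Linear ∧ (∀ x, ρ.r.Occ x → ρ.l.Occ x) ∧
    ∀ e ∈ ρ.conds, ∀ x, e.1.Occ x ∨ e.2.Occ x → ρ.l.Occ x

end Pool.Agent.MP_18c441_lc
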